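import Pool.Agent.Helper32.Aff6

set_option autoImplicit false

namespace Pool.Agent.Results.MP_914128_al.SolvableMetabelian

universe u

/-- A finite solvable group with an affine map of order larger than half the group order is
metabelian. -/
theorem result {G : Type u} [Group G] [Finite G] [Group.IsSolvable G] (t : G) (α : MulAut G)
    (A : Equiv.Perm G) (hA : ∀ x : G, A x = t * α x) (hord : Nat.card G < 2 * orderOf A) :
    derivedSeries G 2 = ⊥ := by
  have h1 : A = Pool.Agent.Helper32.Aff.affineMap t α := by
    ext x
    exact hA x
  rw [h1, ← Pool.Agent.Helper32.Aff.ord_bot] at hord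
  have h2 := Pool.Agent.Helper32.Aff.metabelian _ G t α rfl hord
  rw [derivedSeries_succ, derivedSeries_one]
  exact h2

end Pool.Agent.Results.MP_914128_al.SolvableMetabelian
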